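import Pool.Agent.Helper14_Q2N.Liou

/-! # MP_87570e_al, squad Q2N: complex conjugation on `K` -/

set_option autoImplicit false

namespace Pool.Agent.Q2N.H14

open Filter Complex Topology ComplexConjugate

lemma analyticAt_conj {f : ℂ → ℂ} {z : ℂ} (h : AnalyticAt ℂ f (conj z)) :
    AnalyticAt ℂ (conj ∘ f ∘ conj) z := by
  rw [Complex.analyticAt_iff_eventually_differentiableAt] at h ⊢
  have h1 : Tendsto (fun y : ℂ => conj y) (𝓝 z) (𝓝 (conj z)) :=
    Complex.continuous_conj.tendsto z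
  filter_upwards [h1.eventually h] with y hy
  exact differentiableAt_conj_conj_iff.2 hy

lemma meromorphicAt_conj {f : ℂ → ℂ} {z : ℂ} (h : MeromorphicAt f (conj z)) :
    MeromorphicAt (conj ∘ f ∘ conj) z := by
  obtain ⟨n, hn⟩ := h
  refine ⟨n, ?_⟩
  have h1 := analyticAt_conj hn
  refine h1.congr (Eventually.of_forall fun y => ?_)
  simp only [Function.comp_apply, smul_eq_mul, map_mul, map_pow, map_sub, Complex.conj_conj]

lemma tendsto_conj_ne (z : ℂ) : Tendsto (fun y : ℂ => conj y) (𝓝[≠] z) (𝓝[≠] (conj z)) := by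
  refine tendsto_nhdsWithin_iff.2 ⟨?_, ?_⟩
  · exact (Complex.continuous_conj.tendsto z).mono_left nhdsWithin_le_nhds
  · filter_upwards [self_mem_nhdsWithin] with y hy h
    exact hy ((starRingEnd ℂ).injective h)

lemma order_conj {f : ℂ → ℂ} {z : ℂ} (h : MeromorphicAt f (conj z)) :
    meromorphicOrderAt (conj ∘ f ∘ conj) z = meromorphicOrderAt f (conj z) := by
  by_cases ht : meromorphicOrderAt f (conj z) = ⊤
  · rw [ht, meromorphicOrderAt_eq_top_iff]
    rw [meromorphicOrderAt_eq_top_iff] at ht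
    filter_upwards [(tendsto_conj_ne z).eventually ht] with y hy
    simp only [Function.comp_apply]
    rw [hy, map_zero]
  · obtain ⟨n, hn⟩ := WithTop.ne_top_iff_exists.1 ht
    rw [← hn, meromorphicOrderAt_eq_int_iff (meromorphicAt_conj h)]
    obtain ⟨g, hg1, hg2, hg3⟩ := (meromorphicOrderAt_eq_int_iff h).1 hn.symm
    refine ⟨conj ∘ g ∘ conj, analyticAt_conj hg1, ?_, ?_⟩
    · simp only [Function.comp_apply]
      intro h0
      apply hg2
      have := congrArg conj h0
      rwa [Complex.conj_conj, map_zero] at this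
    · filter_upwards [(tendsto_conj_ne z).eventually hg3] with y hy
      simp only [Function.comp_apply]
      rw [hy]
      simp only [smul_eq_mul, map_mul, map_zpow₀, map_sub, Complex.conj_conj]

/-- Conjugation of functions. -/
noncomputable def cjFun : Per →+* Per where
  toFun f := ⟨conj ∘ (f : ℂ → ℂ) ∘ conj, by
    refine ⟨fun z => meromorphicAt_conj (mero f _), fun z => ?_, fun z => ?_⟩
    · simp only [Function.comp_apply, map_add, map_one, per_one]
    · simp only [Function.comp_apply, map_add, Complex.conj_I]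
      have := per_I f (conj z + -Complex.I)
      rw [neg_add_cancel_right] at this
      rw [← this]⟩
  map_one' := by
    ext z
    show conj ((1 : ℂ)) = 1
    exact map_one _
  map_mul' a b := by
    ext z
    show conj ((a : ℂ → ℂ) (conj z) * (b : ℂ → ℂ) (conj z)) = _
    rw [map_mul]
    rfl
  map_zero' := by
    ext z
    show conj ((0 : ℂ)) = 0
    exact map_zero _
  map_add' a b := by
    ext z
    show conj ((a : ℂ → ℂ) (conj z) + (b : ℂ → ℂ) (conj z)) = _
    rw [map_add]
    rfl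

lemma cjFun_apply (f : Per) (z : ℂ) : (cjFun f : ℂ → ℂ) z = conj ((f : ℂ → ℂ) (conj z)) := rfl

lemma cjFun_cjFun (f : Per) : cjFun (cjFun f) = f := by
  ext z
  rw [cjFun_apply, cjFun_apply, Complex.conj_conj, Complex.conj_conj]

/-- Conjugation as an automorphism. -/
noncomputable def cjPer : Per ≃+* Per :=
  RingEquiv.ofRingHom cjFun cjFun (RingHom.ext cjFun_cjFun) (RingHom.ext cjFun_cjFun)

lemma cjPer_apply (f : Per) (z : ℂ) : (cjPer f : ℂ → ℂ) z = conj ((f : ℂ → ℂ) (conj z)) := rfl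

lemma ord_cjPer (f : Per) (z : ℂ) :
    meromorphicOrderAt (cjPer f : ℂ → ℂ) z = meromorphicOrderAt (f : ℂ → ℂ) (conj z) :=
  order_conj (mero f _)

lemma cjPer_map_Nul : Nul = Nul.map (cjPer : Per →+* Per) := by
  have key : ∀ f ∈ Nul, cjPer f ∈ Nul := by
    intro f hf
    rw [mem_Nul'] at hf ⊢
    intro z
    rw [ord_cjPer]
    exact hf _
  apply le_antisymm
  · intro f hf
    have h1 : cjPer (cjPer f) = f := cjFun_cjFun f
    rw [← h1]
    exact Ideal.mem_map_of_mem _ (key f hf)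
  · rw [Ideal.map_le_iff_le_comap]
    intro f hf
    exact key f hf

/-- Conjugation `f(z) ↦ conj (f (conj z))` on `K`. -/
noncomputable def cj : K ≃+* K :=
  Ideal.quotientEquiv Nul Nul cjPer cjPer_map_Nul

lemma cj_mk (f : Per) : cj (mk f) = mk (cjPer f) := rfl

lemma vC_cj (z : ℂ) (k : K) : vC z (cj k) = vC (conj z) k := by
  obtain ⟨f, rfl⟩ := mk_surj k
  rw [cj_mk, vC_mk, vC_mk, ord_cjPer]

lemma cj_cj (k : K) : cj (cj k) = k := by
  obtain ⟨f, rfl⟩ := mk_surj k
  rw [cj_mk, cj_mk]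
  congr 1
  exact cjFun_cjFun f

lemma cj_algebraMap (c : ℂ) : cj (algebraMap ℂ K c) = algebraMap ℂ K (conj c) := by
  rw [← AlgHom.commutes mk c, cj_mk, ← AlgHom.commutes mk (conj c)]
  congr 1

lemma cj_tr (w : ℂ) (k : K) : cj (tr w k) = tr (conj w) (cj k) := by
  obtain ⟨f, rfl⟩ := mk_surj k
  rw [tr_mk, cj_mk, cj_mk, tr_mk]
  congr 1
  ext z
  rw [cjPer_apply, trPer_apply, trPer_apply, cjPer_apply, map_add, Complex.conj_conj]

lemma conj_w₀ : conj w₀ = -w₀ := by
  unfold w₀
  rw [map_mul, Complex.conj_ofReal, Complex.conj_I, mul_neg]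

/-- The shift `f(z) ↦ f(z + i√2)`. -/
noncomputable def sg : K ≃ₐ[ℂ] K := tr w₀

lemma sg_symm (k : K) : sg.symm k = tr (-w₀) k := by
  rw [AlgEquiv.symm_apply_eq]
  unfold sg
  rw [← tr_add, add_neg_cancel, tr_zero]

lemma cj_sg (k : K) : cj (sg k) = sg.symm (cj k) := by
  rw [sg_symm]
  unfold sg
  rw [cj_tr, conj_w₀]

/-- The shift of the curve. -/
noncomputable def ta : X ≃ X := Equiv.addRight (QuotientAddGroup.mk w₀ : X)

lemma ta_apply (p : X) : ta p = p + (QuotientAddGroup.mk w₀ : X) := rfl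

lemma vX_sg (p : X) (k : K) : vX p (sg k) = vX (ta p) k := vX_tr w₀ p k

lemma ta_pow (n : ℕ) (p : X) : ((ta ^ n : Equiv.Perm X)) p =
    p + n • (QuotientAddGroup.mk w₀ : X) := by
  induction n generalizing p with
  | zero => simp
  | succ i ih =>
    rw [pow_succ, Equiv.Perm.mul_apply, ih, ta_apply, add_assoc, succ_nsmul']

lemma ta_zpow (n : ℤ) (p : X) : ((ta ^ n : Equiv.Perm X)) p =
    p + n • (QuotientAddGroup.mk w₀ : X) := by
  obtain ⟨m, rfl | rfl⟩ := n.eq_nat_or_neg
  · rw [zpow_natCast, ta_pow, natCast_zsmul]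
  · rw [zpow_neg, zpow_natCast, Equiv.Perm.inv_eq_iff_eq, ta_pow, neg_smul, natCast_zsmul,
      neg_add_cancel_right]

/-- The shift of the curve is free. -/
lemma ta_free (n : ℤ) (p : X) (h : ((ta ^ n : Equiv.Perm X)) p = p) : n = 0 := by
  rw [ta_zpow] at h
  exact free_X n p h

end Pool.Agent.Q2N.H14
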