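import Pool.Agent.Q2N.Stmts
import Pool.Agent.Helper14_Q2N.Conj

/-! # MP_87570e_al, squad Q2N, row ELL: the field of elliptic functions as an instance of `Dat` -/

set_option autoImplicit false

namespace Pool.Agent.Q2N.H14

open ComplexConjugate

/-- `K` with its places and the shift. -/
noncomputable def ellDat : Dat ℂ K where
  X := X
  v := vX
  v_const := by
    intro p c hc
    induction p using QuotientAddGroup.induction_on with
    | H z => exact vC_const z c hc
  res := by
    intro p f g hf hg h
    induction p using QuotientAddGroup.induction_on with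
    | H z =>
      obtain ⟨c, _, hc⟩ := exists_lt z f g hg h
      refine ⟨c, ?_⟩
      have h' : vC z f = vC z g := h
      show vC z f < _
      rw [h']
      exact hc
  fin := fun f hf => finite_X f hf
  const := by
    intro f hf
    obtain ⟨c, hc⟩ := liouville_X f hf
    exact ⟨c, hc.symm⟩
  ne := ⟨0⟩
  nonconst := ⟨mk wp, fun c h => wp_not_const c h.symm⟩
  σ := sg.toRingEquiv
  σ_const := fun c => sg.commutes c
  τ := ta
  v_σ := vX_sg
  free := fun p n h => ta_free n p h

lemma ellDat_σ (k : K) : ellDat.σ k = sg k := rfl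

lemma ellDat_σ_inv (k : K) : ellDat.σ⁻¹ k = sg.symm k := rfl

/-- A nonconstant element fixed by the conjugation. -/
lemma exists_fixed : ∃ f : K, cj f = f ∧ ∀ z : ℂ, algebraMap ℂ K z ≠ f := by
  by_contra hcon
  push Not at hcon
  obtain ⟨z1, h1⟩ := hcon (mk wp + cj (mk wp)) (by rw [map_add, cj_cj, add_comm])
  obtain ⟨z2, h2⟩ := hcon (algebraMap ℂ K Complex.I * (mk wp - cj (mk wp))) (by
    rw [map_mul, map_sub, cj_cj, cj_algebraMap, Complex.conj_I, map_neg]
    ring)
  apply wp_not_const ((z1 - Complex.I * z2) / 2)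
  have hI : algebraMap ℂ K Complex.I * algebraMap ℂ K Complex.I = -1 := by
    rw [← map_mul, Complex.I_mul_I, map_neg, map_one]
  have h3 : mk wp - cj (mk wp) = - (algebraMap ℂ K Complex.I * algebraMap ℂ K z2) := by
    rw [h2]
    linear_combination (mk wp - cj (mk wp)) * hI
  have h4 : (2 : K) * mk wp = algebraMap ℂ K z1 - algebraMap ℂ K Complex.I * algebraMap ℂ K z2 := by
    linear_combination h3 - h1
  have h5 : algebraMap ℂ K ((z1 - Complex.I * z2) / 2) * 2 =
      algebraMap ℂ K z1 - algebraMap ℂ K Complex.I * algebraMap ℂ K z2 := by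
    have h6 : (2 : K) = algebraMap ℂ K 2 := by
      rw [map_ofNat]
    rw [h6, ← map_mul, div_mul_cancel₀ _ (two_ne_zero), map_sub, map_mul]
  have h7 : (2 : K) ≠ 0 := by
    have h8 : (2 : K) = algebraMap ℂ K 2 := by
      rw [map_ofNat]
    rw [h8]
    exact (map_ne_zero _).2 two_ne_zero
  apply mul_left_cancel₀ h7
  rw [h4, ← h5, mul_comm]

theorem ell : Pool.Agent.Q2N.EllStmt := by
  obtain ⟨f, hf1, hf2⟩ := exists_fixed
  refine ⟨K, inferInstance, inferInstance, ellDat, cj, f, ?_⟩
  exact
    { alg := fun z => cj_algebraMap z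
      inv := cj_cj
      comm := fun x => cj_sg x
      fix := hf1
      nc := hf2 }

end Pool.Agent.Q2N.H14
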