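import Pool.Agent.Helper14_Q2N.Ord

/-! # MP_87570e_al, squad Q2N: Liouville, finiteness of divisors, a nonconstant element, freeness -/

set_option autoImplicit false

namespace Pool.Agent.Q2N.H14

open Filter Complex Topology

/-- The closed unit square. -/
def Sq : Set ℂ := Set.Icc (0 : ℝ) 1 ×ℂ Set.Icc (0 : ℝ) 1

lemma isCompact_Sq : IsCompact Sq := isCompact_Icc.reProdIm isCompact_Icc

lemma intCast_mem_Lam (m : ℤ) : (m : ℂ) ∈ Lam := by
  have h : (1 : ℂ) ∈ Lam := AddSubgroup.subset_closure (by simp)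
  have h2 := Lam.zsmul_mem h m
  simpa using h2

lemma intCast_mul_I_mem_Lam (m : ℤ) : (m : ℂ) * Complex.I ∈ Lam := by
  have h : Complex.I ∈ Lam := AddSubgroup.subset_closure (by simp)
  have h2 := Lam.zsmul_mem h m
  rwa [zsmul_eq_mul] at h2

lemma mem_Lam {l : ℂ} : l ∈ Lam ↔ ∃ m n : ℤ, l = m + n * Complex.I := by
  constructor
  · intro h
    have h1 : Lam ≤ ({
        carrier := {l | ∃ m n : ℤ, l = m + n * Complex.I}
        add_mem' := by
          rintro a b ⟨m, n, rfl⟩ ⟨m', n', rfl⟩
          exact ⟨m + m', n + n', by push_cast; ring⟩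
        zero_mem' := ⟨0, 0, by simp⟩
        neg_mem' := by
          rintro a ⟨m, n, rfl⟩
          exact ⟨-m, -n, by push_cast; ring⟩ } : AddSubgroup ℂ) := by
      unfold Lam
      rw [AddSubgroup.closure_le]
      rintro x hx
      rcases hx with rfl | hx
      · exact ⟨1, 0, by simp⟩
      · rw [Set.mem_singleton_iff] at hx
        subst hx
        exact ⟨0, 1, by simp⟩
    exact h1 h
  · rintro ⟨m, n, rfl⟩
    exact Lam.add_mem (intCast_mem_Lam m) (intCast_mul_I_mem_Lam n)

/-- Every point is congruent to a point of the square. -/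
lemma exists_Sq (z : ℂ) : ∃ l ∈ Lam, z + l ∈ Sq := by
  refine ⟨((-⌊z.re⌋ : ℤ) : ℂ) + ((-⌊z.im⌋ : ℤ) : ℂ) * Complex.I,
    mem_Lam.2 ⟨_, _, rfl⟩, ?_⟩
  rw [Sq, Complex.mem_reProdIm]
  have h1 := Int.floor_le z.re
  have h2 := Int.lt_floor_add_one z.re
  have h3 := Int.floor_le z.im
  have h4 := Int.lt_floor_add_one z.im
  constructor
  · simp only [add_re, mul_re, intCast_re, intCast_im, I_re, I_im, mul_zero, mul_one,
      add_zero, Int.cast_neg, neg_re, neg_im, Set.mem_Icc, neg_zero, sub_self]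
    constructor <;> linarith
  · simp only [add_im, mul_im, intCast_re, intCast_im, I_re, I_im, mul_zero, mul_one,
      add_zero, Int.cast_neg, neg_re, neg_im, Set.mem_Icc, neg_zero, zero_add]
    constructor <;> linarith

/-- Liouville: no poles means constant. -/
lemma liouville (k : K) (hk : ∀ z, 0 ≤ vC z k) : ∃ c : ℂ, k = algebraMap ℂ K c := by
  obtain ⟨f, rfl⟩ := mk_surj k
  have hfm : MeromorphicOn (f : ℂ → ℂ) Set.univ := fun z _ => mero f z
  set g : ℂ → ℂ := toMeromorphicNFOn (f : ℂ → ℂ) Set.univ with hg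
  have hgf : ∀ z, g =ᶠ[𝓝[≠] z] (f : ℂ → ℂ) := fun z =>
    hfm.toMeromorphicNFOn_eq_self_on_nhdsNE (Set.mem_univ z)
  have hga : ∀ z, AnalyticAt ℂ g z := by
    intro z
    rw [← (meromorphicNFOn_toMeromorphicNFOn (f : ℂ → ℂ) Set.univ
      (Set.mem_univ z)).meromorphicOrderAt_nonneg_iff_analyticAt,
      meromorphicOrderAt_congr (hgf z)]
    have := hk z
    rwa [vC_mk] at this
  have hgd : Differentiable ℂ g := fun z => (hga z).differentiableAt
  have hgc : Continuous g := hgd.continuous
  have hper : ∀ w : ℂ, (∀ z, (f : ℂ → ℂ) (z + w) = (f : ℂ → ℂ) z) → ∀ z, g (z + w) = g z := by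
    intro w hw z
    have h1 : ∀ᶠ y in 𝓝[≠] z, g y = (f : ℂ → ℂ) y := hgf z
    have h2 : ∀ᶠ y in 𝓝[≠] z, g (y + w) = (f : ℂ → ℂ) (y + w) := by
      have h3 : Tendsto (fun y => y + w) (𝓝[≠] z) (𝓝[≠] (z + w)) := by
        refine tendsto_nhdsWithin_iff.2 ⟨?_, ?_⟩
        · exact ((continuous_id.add continuous_const).tendsto z).mono_left nhdsWithin_le_nhds
        · filter_upwards [self_mem_nhdsWithin] with y hy h
          exact hy (add_right_cancel h)
      exact h3.eventually (hgf (z + w))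
    have h4 : ∀ᶠ y in 𝓝[≠] z, g (y + w) = g y := by
      filter_upwards [h1, h2] with y e1 e2
      rw [e1, e2, hw]
    have h5 : Tendsto (fun y => g (y + w)) (𝓝[≠] z) (𝓝 (g (z + w))) :=
      ((hgc.comp (continuous_id.add continuous_const)).tendsto z).mono_left nhdsWithin_le_nhds
    have h6 : Tendsto (fun y => g y) (𝓝[≠] z) (𝓝 (g z)) :=
      (hgc.tendsto z).mono_left nhdsWithin_le_nhds
    exact tendsto_nhds_unique (h5.congr' h4) h6
  have hL : ∀ l ∈ Lam, ∀ z, g (z + l) = g z := by
    have h1 : Lam ≤ ({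
        carrier := {l | ∀ z, g (z + l) = g z}
        add_mem' := by
          intro a b ha hb z
          rw [← add_assoc, hb, ha]
        zero_mem' := by
          intro z
          rw [add_zero]
        neg_mem' := by
          intro a ha z
          have := ha (z + -a)
          rw [neg_add_cancel_right] at this
          exact this.symm } : AddSubgroup ℂ) := by
      unfold Lam
      rw [AddSubgroup.closure_le]
      rintro x hx
      rcases hx with rfl | hx
      · exact hper 1 (per_one f)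
      · rw [Set.mem_singleton_iff] at hx
        subst hx
        exact hper _ (per_I f)
    exact h1
  have hb : Bornology.IsBounded (Set.range g) := by
    refine ((isCompact_Sq.image hgc).isBounded).subset ?_
    rintro _ ⟨z, rfl⟩
    obtain ⟨l, hl, hz⟩ := exists_Sq z
    exact ⟨z + l, hz, hL l hl z⟩
  obtain ⟨c, hc⟩ := hgd.exists_eq_const_of_bounded hb
  refine ⟨c, ?_⟩
  rw [← AlgHom.commutes mk c, mk_eq]
  intro z
  filter_upwards [hgf z] with y hy
  rw [← hy, hc]
  rfl

lemma liouville_X (k : K) (hk : ∀ p, 0 ≤ vX p k) : ∃ c : ℂ, k = algebraMap ℂ K c :=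
  liouville k fun z => hk (QuotientAddGroup.mk z)

/-- Only finitely many zeros and poles. -/
lemma finite_X (k : K) (hk : k ≠ 0) : {p : X | vX p k ≠ 0}.Finite := by
  obtain ⟨f, rfl⟩ := mk_surj k
  have hf : f ∉ Nul := fun h => hk (mk_eq_zero.2 h)
  have hfm : MeromorphicOn (f : ℂ → ℂ) Sq := fun z _ => mero f z
  have hfin : (MeromorphicOn.divisor (f : ℂ → ℂ) Sq).support.Finite :=
    (MeromorphicOn.divisor (f : ℂ → ℂ) Sq).finiteSupport isCompact_Sq
  refine (hfin.image (fun z => (QuotientAddGroup.mk z : X))).subset ?_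
  intro p hp
  induction p using QuotientAddGroup.induction_on with
  | H z =>
    obtain ⟨l, hl, hz⟩ := exists_Sq z
    refine ⟨z + l, ?_, ?_⟩
    · rw [Function.mem_support, MeromorphicOn.divisor_apply hfm hz]
      rw [Set.mem_ofPred_eq, vX_mk, ← vC_add_Lam hl, vC_mk] at hp
      intro h0
      obtain ⟨n, hn⟩ := WithTop.ne_top_iff_exists.1 (ord_ne_top hf (z + l))
      rw [← hn] at h0 hp
      apply hp
      rw [WithTop.untop₀_coe] at h0
      rw [h0]
      rfl
    · exact (QuotientAddGroup.eq.2 (by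
        have : -(z + l) + z = -l := by ring
        rw [this]
        exact Lam.neg_mem hl))

/-! ### A nonconstant element -/

/-- The period pair `(1, I)`. -/
noncomputable def pp : PeriodPair where
  ω₁ := 1
  ω₂ := Complex.I
  indep := by
    rw [LinearIndependent.pair_iff]
    intro s t h
    have h1 := congrArg Complex.re h
    have h2 := congrArg Complex.im h
    simp at h1 h2
    exact ⟨h1, h2⟩

/-- The Weierstrass function as an element of `Per`. -/
noncomputable def wp : Per :=
  ⟨pp.weierstrassP, pp.meromorphic_weierstrassP,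
    fun z => pp.periodic_weierstrassP ⟨1, pp.ω₁_mem_lattice⟩ z,
    fun z => pp.periodic_weierstrassP ⟨Complex.I, pp.ω₂_mem_lattice⟩ z⟩

lemma vC_wp : vC 0 (mk wp) = ((-2 : ℤ) : WithTop ℤ) := by
  rw [vC_mk]
  have := pp.order_weierstrassP 0 (Submodule.zero_mem _)
  rw [show ((wp : Per) : ℂ → ℂ) = pp.weierstrassP from rfl, this]
  rfl

lemma wp_not_const (c : ℂ) : mk wp ≠ algebraMap ℂ K c := by
  intro h
  have h1 := vC_wp
  rw [h] at h1
  by_cases hc : c = 0
  · rw [hc, map_zero, vC_apply, ordC_zero] at h1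
    exact WithTop.coe_ne_top h1.symm
  · rw [vC_const 0 c hc] at h1
    have : (0 : ℤ) = -2 := by exact_mod_cast h1
    omega

/-! ### Freeness -/

/-- The translation vector. -/
noncomputable def w₀ : ℂ := (Real.sqrt 2 : ℝ) * Complex.I

lemma free_w₀ (n : ℤ) (h : (n : ℂ) * w₀ ∈ Lam) : n = 0 := by
  obtain ⟨a, b, hab⟩ := mem_Lam.1 h
  have h1 := congrArg Complex.im hab
  simp only [w₀, mul_im, mul_re, intCast_re, intCast_im, ofReal_re, ofReal_im, I_re, I_im,
    mul_zero, mul_one, add_zero, sub_zero, add_im, zero_add] at h1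
  by_contra hn
  have hn' : (n : ℝ) ≠ 0 := by exact_mod_cast hn
  have h2 : Real.sqrt 2 = ((b / n : ℚ) : ℝ) := by
    push_cast
    rw [eq_div_iff hn', mul_comm]
    exact h1
  exact irrational_sqrt_two ⟨_, h2.symm⟩

lemma free_X (n : ℤ) (p : X) (h : p + n • (QuotientAddGroup.mk w₀ : X) = p) : n = 0 := by
  have h1 : n • (QuotientAddGroup.mk w₀ : X) = 0 := by
    simpa using h
  have h2 : (QuotientAddGroup.mk ((n : ℂ) * w₀) : X) = 0 := by
    rw [← zsmul_eq_mul]
    exact h1
  exact free_w₀ n ((QuotientAddGroup.eq_zero_iff _).1 h2)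

end Pool.Agent.Q2N.H14
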