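import Pool.Agent.Helper14_Q2N.Per

/-! # MP_87570e_al, squad Q2N: orders of elements of `K`, leading coefficients, translations -/

set_option autoImplicit false

namespace Pool.Agent.Q2N.H14

open Filter Complex Topology

lemma ordC_zero (z : ℂ) : ordC z 0 = ⊤ := by
  have h : ordC z (mk 0) = ⊤ := by
    rw [ordC_mk]
    exact mem_Nul'.1 Nul.zero_mem z
  simpa using h

lemma ordC_algebraMap (z c : ℂ) (hc : c ≠ 0) : ordC z (algebraMap ℂ K c) = 0 := by
  have h : ordC z (mk (algebraMap ℂ Per c)) = 0 := by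
    rw [ordC_mk]
    have h1 := meromorphicOrderAt_const (𝕜 := ℂ) z c
    rw [if_neg hc] at h1
    exact h1
  rwa [AlgHom.commutes] at h

lemma ordC_one (z : ℂ) : ordC z 1 = 0 := by
  have h := ordC_algebraMap z 1 one_ne_zero
  rwa [map_one] at h

lemma ordC_mul (z : ℂ) (a b : K) : ordC z (a * b) = ordC z a + ordC z b := by
  obtain ⟨f, rfl⟩ := mk_surj a
  obtain ⟨g, rfl⟩ := mk_surj b
  rw [← map_mul, ordC_mk, ordC_mk, ordC_mk]
  exact meromorphicOrderAt_mul (mero f z) (mero g z)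

lemma ordC_add (z : ℂ) (a b : K) : min (ordC z a) (ordC z b) ≤ ordC z (a + b) := by
  obtain ⟨f, rfl⟩ := mk_surj a
  obtain ⟨g, rfl⟩ := mk_surj b
  rw [← map_add, ordC_mk, ordC_mk, ordC_mk]
  exact meromorphicOrderAt_add (mero f z) (mero g z)

/-- The order at `z` as a valuation. -/
noncomputable def vC (z : ℂ) : AddValuation K (WithTop ℤ) :=
  AddValuation.of (ordC z) (ordC_zero z) (ordC_one z) (ordC_add z) (ordC_mul z)

lemma vC_apply (z : ℂ) (k : K) : vC z k = ordC z k := rfl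

lemma vC_mk (z : ℂ) (f : Per) : vC z (mk f) = meromorphicOrderAt (f : ℂ → ℂ) z := ordC_mk z f

lemma vC_const (z c : ℂ) (hc : c ≠ 0) : vC z (algebraMap ℂ K c) = 0 := ordC_algebraMap z c hc

/-- Leading coefficients: if the orders agree, some `a - c b` has larger order. -/
lemma exists_lt (z : ℂ) (a b : K) (hb : b ≠ 0) (h : vC z a = vC z b) :
    ∃ c : ℂ, c ≠ 0 ∧ vC z b < vC z (a - algebraMap ℂ K c * b) := by
  obtain ⟨f, rfl⟩ := mk_surj a
  obtain ⟨g, rfl⟩ := mk_surj b
  have hg : g ∉ Nul := fun h1 => hb (mk_eq_zero.2 h1)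
  have hgt := ord_ne_top hg z
  rw [vC_mk, vC_mk] at h
  obtain ⟨n, hn⟩ := WithTop.ne_top_iff_exists.1 hgt
  obtain ⟨G, hG1, hG2, hG3⟩ := (meromorphicOrderAt_eq_int_iff (mero g z)).1 hn.symm
  obtain ⟨F, hF1, hF2, hF3⟩ := (meromorphicOrderAt_eq_int_iff (mero f z)).1 (h.trans hn.symm)
  refine ⟨F z / G z, div_ne_zero hF2 hG2, ?_⟩
  set c : ℂ := F z / G z with hc
  have hmk : mk f - algebraMap ℂ K c * mk g = mk (f - algebraMap ℂ Per c * g) := by
    rw [map_sub, map_mul, AlgHom.commutes]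
  rw [hmk, vC_mk, vC_mk, ← hn]
  have hH : AnalyticAt ℂ (fun w => F w - c * G w) z := hF1.sub (analyticAt_const.mul hG1)
  have hH0 : F z - c * G z = 0 := by
    rw [hc, div_mul_cancel₀ _ hG2, sub_self]
  have hpos : (0 : WithTop ℤ) < meromorphicOrderAt (fun w => F w - c * G w) z := by
    rw [hH.meromorphicOrderAt_eq]
    have h1 : analyticOrderAt (fun w => F w - c * G w) z ≠ 0 := by
      rw [hH.analyticOrderAt_ne_zero]
      exact hH0
    cases h2 : analyticOrderAt (fun w => F w - c * G w) z with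
    | top => simp
    | coe m =>
      rw [h2] at h1
      have h3 : m ≠ 0 := by
        rintro rfl
        exact h1 rfl
      have h4 : (0 : ℤ) < (m : ℤ) := by exact_mod_cast Nat.pos_of_ne_zero h3
      show (0 : WithTop ℤ) < ((m : ℤ) : WithTop ℤ)
      exact_mod_cast h4
  have hcongr : ((f - algebraMap ℂ Per c * g : Per) : ℂ → ℂ) =ᶠ[𝓝[≠] z]
      ((· - z) ^ n) * (fun w => F w - c * G w) := by
    filter_upwards [hF3, hG3] with w h1 h2
    show (f : ℂ → ℂ) w - c * (g : ℂ → ℂ) w = (w - z) ^ n * (F w - c * G w)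
    rw [h1, h2, smul_eq_mul, smul_eq_mul]
    ring
  rw [meromorphicOrderAt_congr hcongr, meromorphicOrderAt_mul (by fun_prop) hH.meromorphicAt,
    meromorphicOrderAt_zpow_id_sub_const]
  by_cases htop : meromorphicOrderAt (fun w => F w - c * G w) z = ⊤
  · rw [htop, WithTop.add_top]
    exact WithTop.coe_lt_top n
  · obtain ⟨m, hm⟩ := WithTop.ne_top_iff_exists.1 htop
    rw [← hm] at hpos ⊢
    have h5 : (0 : ℤ) < m := by exact_mod_cast hpos
    have h6 : n < n + m := by omega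
    exact_mod_cast h6

/-! ### Translations -/

/-- Translation of functions. -/
noncomputable def trFun (w : ℂ) : Per →ₐ[ℂ] Per where
  toFun f := ⟨fun z => (f : ℂ → ℂ) (z + w), by
    refine ⟨fun z => ?_, fun z => ?_, fun z => ?_⟩
    · have h := (meromorphicAt_comp_add_const_iff_meromorphicAt (f := (f : ℂ → ℂ))
        (x := z) (c := w)).2 (mero f (z + w))
      exact h
    · show (f : ℂ → ℂ) (z + 1 + w) = (f : ℂ → ℂ) (z + w)
      rw [add_right_comm, per_one]
    · show (f : ℂ → ℂ) (z + Complex.I + w) = (f : ℂ → ℂ) (z + w)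
      rw [add_right_comm, per_I]⟩
  map_one' := rfl
  map_mul' _ _ := rfl
  map_zero' := rfl
  map_add' _ _ := rfl
  commutes' _ := rfl

lemma trFun_apply (w : ℂ) (f : Per) (z : ℂ) :
    (trFun w f : ℂ → ℂ) z = (f : ℂ → ℂ) (z + w) := rfl

/-- Translation as an automorphism. -/
noncomputable def trPer (w : ℂ) : Per ≃ₐ[ℂ] Per :=
  AlgEquiv.ofAlgHom (trFun w) (trFun (-w))
    (by
      ext f z
      show (f : ℂ → ℂ) (z + w + -w) = (f : ℂ → ℂ) z
      rw [add_neg_cancel_right])
    (by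
      ext f z
      show (f : ℂ → ℂ) (z + -w + w) = (f : ℂ → ℂ) z
      rw [neg_add_cancel_right])

lemma trPer_apply (w : ℂ) (f : Per) (z : ℂ) :
    (trPer w f : ℂ → ℂ) z = (f : ℂ → ℂ) (z + w) := rfl

lemma ord_trPer (w : ℂ) (f : Per) (z : ℂ) :
    meromorphicOrderAt (trPer w f : ℂ → ℂ) z = meromorphicOrderAt (f : ℂ → ℂ) (z + w) :=
  meromorphicOrderAt_comp_add_const_eq_meromorphicOrderAt

lemma trPer_map_Nul (w : ℂ) : Nul = Nul.map (trPer w : Per →+* Per) := by
  have key : ∀ w : ℂ, ∀ f ∈ Nul, trPer w f ∈ Nul := by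
    intro w f hf
    rw [mem_Nul'] at hf ⊢
    intro z
    rw [ord_trPer]
    exact hf _
  apply le_antisymm
  · intro f hf
    have h1 : trPer w (trPer (-w) f) = f := by
      ext z
      show (f : ℂ → ℂ) (z + w + -w) = (f : ℂ → ℂ) z
      rw [add_neg_cancel_right]
    rw [← h1]
    exact Ideal.mem_map_of_mem _ (key (-w) f hf)
  · rw [Ideal.map_le_iff_le_comap]
    intro f hf
    exact key w f hf

/-- Translation `f(z) ↦ f(z + w)` on `K`. -/
noncomputable def tr (w : ℂ) : K ≃ₐ[ℂ] K :=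
  Ideal.quotientEquivAlg Nul Nul (trPer w) (trPer_map_Nul w)

lemma tr_mk (w : ℂ) (f : Per) : tr w (mk f) = mk (trPer w f) := rfl

lemma vC_tr (w z : ℂ) (k : K) : vC z (tr w k) = vC (z + w) k := by
  obtain ⟨f, rfl⟩ := mk_surj k
  rw [tr_mk, vC_mk, vC_mk, ord_trPer]

lemma tr_add (w w' : ℂ) (k : K) : tr (w + w') k = tr w (tr w' k) := by
  obtain ⟨f, rfl⟩ := mk_surj k
  rw [tr_mk, tr_mk, tr_mk]
  congr 1
  ext z
  show (f : ℂ → ℂ) (z + (w + w')) = (f : ℂ → ℂ) (z + w + w')
  rw [add_assoc]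

lemma tr_zero (k : K) : tr 0 k = k := by
  obtain ⟨f, rfl⟩ := mk_surj k
  rw [tr_mk]
  congr 1
  ext z
  show (f : ℂ → ℂ) (z + 0) = (f : ℂ → ℂ) z
  rw [add_zero]

lemma tr_one (k : K) : tr 1 k = k := by
  obtain ⟨f, rfl⟩ := mk_surj k
  rw [tr_mk]
  congr 1
  ext z
  exact per_one f z

lemma tr_I (k : K) : tr Complex.I k = k := by
  obtain ⟨f, rfl⟩ := mk_surj k
  rw [tr_mk]
  congr 1
  ext z
  exact per_I f z

lemma vC_add_one (z : ℂ) : vC (z + 1) = vC z := by
  ext k
  rw [← vC_tr, tr_one]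

lemma vC_add_I (z : ℂ) : vC (z + Complex.I) = vC z := by
  ext k
  rw [← vC_tr, tr_I]

/-- The lattice of Gaussian integers. -/
def Lam : AddSubgroup ℂ := AddSubgroup.closure {1, Complex.I}

lemma vC_add_Lam {l : ℂ} (hl : l ∈ Lam) (z : ℂ) : vC (z + l) = vC z := by
  have h1 : Lam ≤ ({
      carrier := {l | ∀ z, vC (z + l) = vC z}
      add_mem' := by
        intro a b ha hb z
        rw [← add_assoc, hb, ha]
      zero_mem' := by
        intro z
        rw [add_zero]
      neg_mem' := by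
        intro a ha z
        have := ha (z + -a)
        rw [neg_add_cancel_right] at this
        exact this.symm } : AddSubgroup ℂ) := by
    unfold Lam
    rw [AddSubgroup.closure_le]
    rintro x hx
    rcases hx with rfl | hx
    · exact vC_add_one
    · rw [Set.mem_singleton_iff] at hx
      subst hx
      exact vC_add_I
  exact h1 hl z

/-- The curve `ℂ / ℤ[i]`. -/
abbrev X : Type := ℂ ⧸ Lam

/-- The order at a point of the curve. -/
noncomputable def vX (p : X) : AddValuation K (WithTop ℤ) :=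
  Quotient.liftOn' p vC (by
    intro a b hab
    have h := QuotientAddGroup.leftRel_apply.1 hab
    have h2 := vC_add_Lam h a
    rw [← h2]
    congr 1
    ring)

lemma vX_mk (z : ℂ) : vX (QuotientAddGroup.mk z : X) = vC z := rfl

lemma vX_tr (w : ℂ) (p : X) (k : K) :
    vX p (tr w k) = vX (p + (QuotientAddGroup.mk w : X)) k := by
  induction p using QuotientAddGroup.induction_on with
  | H z =>
    rw [← QuotientAddGroup.mk_add, vX_mk, vX_mk, vC_tr]

end Pool.Agent.Q2N.H14
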