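import Mathlib

/-! # MP_87570e_al, squad Q2N: the field `K` of meromorphic functions with periods `1`, `I`

`Per` is the algebra of all meromorphic functions with these periods, `Nul` the ideal of the
functions which vanish near every point (the point itself excepted), `K = Per / Nul`. -/

set_option autoImplicit false

namespace Pool.Agent.Q2N.H14

open Filter Complex Topology

/-- Meromorphic functions with periods `1` and `I`. -/
def Per : Subalgebra ℂ (ℂ → ℂ) where
  carrier := {f | Meromorphic f ∧ (∀ z, f (z + 1) = f z) ∧ ∀ z, f (z + I) = f z}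
  mul_mem' := by
    rintro a b ⟨ha, ha1, haI⟩ ⟨hb, hb1, hbI⟩
    exact ⟨ha.mul hb, fun z => by simp only [Pi.mul_apply, ha1, hb1],
      fun z => by simp only [Pi.mul_apply, haI, hbI]⟩
  add_mem' := by
    rintro a b ⟨ha, ha1, haI⟩ ⟨hb, hb1, hbI⟩
    exact ⟨ha.add hb, fun z => by simp only [Pi.add_apply, ha1, hb1],
      fun z => by simp only [Pi.add_apply, haI, hbI]⟩
  algebraMap_mem' := fun c => ⟨Meromorphic.const c, fun _ => rfl, fun _ => rfl⟩

lemma mero (f : Per) : Meromorphic (f : ℂ → ℂ) := f.2.1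
lemma per_one (f : Per) (z : ℂ) : (f : ℂ → ℂ) (z + 1) = (f : ℂ → ℂ) z := f.2.2.1 z
lemma per_I (f : Per) (z : ℂ) : (f : ℂ → ℂ) (z + Complex.I) = (f : ℂ → ℂ) z := f.2.2.2 z

/-- The functions which vanish near every point. -/
def Nul : Ideal Per where
  carrier := {f | ∀ x, (f : ℂ → ℂ) =ᶠ[𝓝[≠] x] 0}
  add_mem' := by
    intro a b ha hb x
    filter_upwards [ha x, hb x] with z h1 h2
    show (a : ℂ → ℂ) z + (b : ℂ → ℂ) z = 0
    rw [h1, h2]; simp
  zero_mem' := fun x => Eventually.of_forall fun _ => rfl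
  smul_mem' := by
    intro c a ha x
    filter_upwards [ha x] with z h1
    show (c : ℂ → ℂ) z * (a : ℂ → ℂ) z = 0
    rw [h1]; simp

lemma mem_Nul {f : Per} : f ∈ Nul ↔ ∀ x, (f : ℂ → ℂ) =ᶠ[𝓝[≠] x] 0 := Iff.rfl

lemma mem_Nul' {f : Per} : f ∈ Nul ↔ ∀ x, meromorphicOrderAt (f : ℂ → ℂ) x = ⊤ := by
  rw [mem_Nul]
  refine forall_congr' fun x => ?_
  rw [meromorphicOrderAt_eq_top_iff]
  exact Iff.rfl

/-- Identity theorem: outside `Nul` all orders are finite. -/
lemma ord_ne_top {f : Per} (hf : f ∉ Nul) (x : ℂ) :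
    meromorphicOrderAt (f : ℂ → ℂ) x ≠ ⊤ := by
  rw [mem_Nul'] at hf
  push Not at hf
  obtain ⟨y, hy⟩ := hf
  exact MeromorphicOn.meromorphicOrderAt_ne_top_of_isPreconnected
    (U := Set.univ) (f := (f : ℂ → ℂ)) (fun z _ => mero f z) isPreconnected_univ
    (Set.mem_univ y) (Set.mem_univ x) hy

/-- The pointwise inverse. -/
noncomputable def pinv (f : Per) : Per :=
  ⟨(f : ℂ → ℂ)⁻¹, (mero f).inv, fun z => by simp only [Pi.inv_apply, per_one f],
    fun z => by simp only [Pi.inv_apply, per_I f]⟩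

lemma mul_inv_sub_one {f : Per} (hf : f ∉ Nul) : f * pinv f - 1 ∈ Nul := by
  intro x
  have h := (meromorphicOrderAt_ne_top_iff_eventually_ne_zero (mero f x)).1 (ord_ne_top hf x)
  filter_upwards [h] with z hz
  show (f : ℂ → ℂ) z * ((f : ℂ → ℂ) z)⁻¹ - 1 = 0
  rw [mul_inv_cancel₀ hz, sub_self]

lemma one_notMem : (1 : Per) ∉ Nul := by
  intro h
  have h1 := h 0
  have h2 : ∃ z : ℂ, (1 : ℂ) = 0 := by
    obtain ⟨z, hz⟩ := h1.exists
    exact ⟨z, hz⟩
  obtain ⟨_, h3⟩ := h2
  exact one_ne_zero h3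

instance : Nul.IsMaximal := by
  rw [Ideal.isMaximal_iff]
  refine ⟨one_notMem, fun J f hJ hf hfJ => ?_⟩
  have h1 := hJ (mul_inv_sub_one hf)
  have h2 : f * pinv f ∈ J := J.mul_mem_right _ hfJ
  have h3 := J.sub_mem h2 h1
  simpa using h3

/-- The field of meromorphic functions with periods `1`, `I`. -/
def K : Type := Per ⧸ Nul

noncomputable instance : Field K := Ideal.Quotient.field Nul
noncomputable instance : Algebra ℂ K := inferInstanceAs (Algebra ℂ (Per ⧸ Nul))

/-- The class of a function. -/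
noncomputable def mk : Per →ₐ[ℂ] K := Ideal.Quotient.mkₐ ℂ Nul

lemma mk_surj : Function.Surjective mk := Ideal.Quotient.mkₐ_surjective ℂ Nul

lemma mk_eq_zero {f : Per} : mk f = 0 ↔ f ∈ Nul := Ideal.Quotient.eq_zero_iff_mem

lemma mk_eq {f g : Per} : mk f = mk g ↔ ∀ x, (f : ℂ → ℂ) =ᶠ[𝓝[≠] x] g := by
  rw [← sub_eq_zero, ← map_sub, mk_eq_zero, mem_Nul]
  refine forall_congr' fun x => ?_
  constructor
  · intro h
    filter_upwards [h] with z hz
    exact sub_eq_zero.1 hz
  · intro h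
    filter_upwards [h] with z hz
    exact sub_eq_zero.2 hz

/-- The order at the point `z`. -/
noncomputable def ordC (z : ℂ) (k : K) : WithTop ℤ :=
  meromorphicOrderAt ((Quotient.out k : Per) : ℂ → ℂ) z

lemma ordC_mk (z : ℂ) (f : Per) : ordC z (mk f) = meromorphicOrderAt (f : ℂ → ℂ) z := by
  unfold ordC
  apply meromorphicOrderAt_congr
  have h : mk (Quotient.out (mk f : K) : Per) = mk f := Quotient.out_eq (mk f : K)
  exact mk_eq.1 h z

end Pool.Agent.Q2N.H14
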